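import Pool.Agent.V111.B6Q

/-!
A super-decomposable abelian group whose endomorphism ring is noncommutative and centrally
essential.
-/

namespace Pool.Agent.Results.MP_6d0c2f_al.SuperDecomp

open Pool.Agent.V111 Pool.Agent.V111.Realize

/-- `B` is a direct summand of `A`. -/
def IsSummand {A : Type} [AddCommGroup A] (B : AddSubgroup A) : Prop :=
  ∃ C : AddSubgroup A, B ⊓ C = ⊥ ∧ B ⊔ C = ⊤

/-- `B` is indecomposable: nonzero and not the direct sum of two nonzero subgroups. -/
def IsIndecomposable {A : Type} [AddCommGroup A] (B : AddSubgroup A) : Prop :=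
  B ≠ ⊥ ∧ ∀ B₁ B₂ : AddSubgroup A, B₁ ⊓ B₂ = ⊥ → B₁ ⊔ B₂ = B → B₁ = ⊥ ∨ B₂ = ⊥

/-- `A` is super-decomposable: no direct summand of `A` is indecomposable (and so nonzero). -/
def SuperDecomposable (A : Type) [AddCommGroup A] : Prop :=
  ∀ B : AddSubgroup A, IsSummand B → ¬ IsIndecomposable B

/-! ### Super-decomposability in terms of idempotent endomorphisms -/

theorem superDecomposable_of {A : Type} [AddCommGroup A]
    (h : ∀ π : AddMonoid.End A, π * π = π → π ≠ 0 →
      ∃ η : AddMonoid.End A, η * π = η ∧ π * η = η ∧ η * η = η ∧ η ≠ 0 ∧ η ≠ π) :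
    SuperDecomposable A := by
  rintro B ⟨C, hBC, hBC'⟩ ⟨hB0, hB⟩
  -- the projection
  obtain ⟨B', hB'⟩ : ∃ B' : Submodule ℤ A, B' = AddSubgroup.toIntSubmodule B := ⟨_, rfl⟩
  obtain ⟨C', hC'⟩ : ∃ C' : Submodule ℤ A, C' = AddSubgroup.toIntSubmodule C := ⟨_, rfl⟩
  have hmB : ∀ a, a ∈ B' ↔ a ∈ B := fun a => by rw [hB']; rfl
  have hmC : ∀ a, a ∈ C' ↔ a ∈ C := fun a => by rw [hC']; rfl
  have hcompl : IsCompl B' C' := by
    constructor
    · rw [Submodule.disjoint_def]
      intro a h1 h2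
      have : a ∈ B ⊓ C := ⟨(hmB a).mp h1, (hmC a).mp h2⟩
      rw [hBC] at this
      exact this
    · rw [codisjoint_iff, Submodule.eq_top_iff']
      intro a
      have : a ∈ B ⊔ C := by rw [hBC']; trivial
      obtain ⟨b, hb, c, hc, rfl⟩ := AddSubgroup.mem_sup.mp this
      exact Submodule.add_mem_sup ((hmB b).mpr hb) ((hmC c).mpr hc)
  obtain ⟨π, hπ⟩ : ∃ π : AddMonoid.End A, ∀ a, π a = B'.projection C' hcompl a :=
    ⟨(B'.projection C' hcompl).toAddMonoidHom, fun _ => rfl⟩
  have hπB : ∀ a ∈ B, π a = a := by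
    intro a ha
    rw [hπ]
    exact Submodule.projection_apply_left hcompl ⟨a, (hmB a).mpr ha⟩
  have hπm : ∀ a, π a ∈ B := by
    intro a
    rw [hπ]
    exact (hmB _).mp (Submodule.projection_apply_mem hcompl a)
  have hππ : π * π = π := by
    apply DFunLike.ext
    intro a
    exact hπB _ (hπm a)
  have hπ0 : π ≠ 0 := by
    rintro h0
    apply hB0
    rw [AddSubgroup.eq_bot_iff_forall]
    intro a ha
    rw [← hπB a ha, h0]
    rfl
  obtain ⟨η, h1, h2, h3, h4, h5⟩ := h π hππ hπ0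
  have g1 : ∀ a, η (π a) = η a := fun a => congrArg (fun f : AddMonoid.End A => f a) h1
  have g2 : ∀ a, π (η a) = η a := fun a => congrArg (fun f : AddMonoid.End A => f a) h2
  have g3 : ∀ a, η (η a) = η a := fun a => congrArg (fun f : AddMonoid.End A => f a) h3
  obtain ⟨B1, hB1⟩ : ∃ B1 : AddSubgroup A, B1 = AddMonoidHom.range η := ⟨_, rfl⟩
  obtain ⟨B2, hB2⟩ : ∃ B2 : AddSubgroup A, B2 = AddMonoidHom.range (π - η) := ⟨_, rfl⟩
  have m1 : ∀ a, a ∈ B1 ↔ ∃ b, η b = a := fun a => by rw [hB1]; rfl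
  have m2 : ∀ a, a ∈ B2 ↔ ∃ b, π b - η b = a := fun a => by rw [hB2]; rfl
  have hmeet : B1 ⊓ B2 = ⊥ := by
    rw [AddSubgroup.eq_bot_iff_forall]
    rintro a ⟨ha1, ha2⟩
    obtain ⟨b, hb⟩ := (m1 a).mp ha1
    obtain ⟨c, hc⟩ := (m2 a).mp ha2
    have e1 : η a = a := by rw [← hb, g3]
    have e2 : η a = 0 := by rw [← hc, map_sub, g1, g3, sub_self]
    rw [← e1, e2]
  have hjoin : B1 ⊔ B2 = B := by
    apply le_antisymm
    · apply sup_le
      · intro a ha
        obtain ⟨b, hb⟩ := (m1 a).mp ha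
        rw [← hb, ← g2]; exact hπm _
      · intro a ha
        obtain ⟨b, hb⟩ := (m2 a).mp ha
        rw [← hb, ← g2 b]
        exact B.sub_mem (hπm _) (hπm _)
    · intro a ha
      have e1 : a = η a + (π a - η a) := by rw [hπB a ha]; abel
      rw [e1]
      exact AddSubgroup.add_mem _ (AddSubgroup.mem_sup_left ((m1 _).mpr ⟨a, rfl⟩))
        (AddSubgroup.mem_sup_right ((m2 _).mpr ⟨a, rfl⟩))
  rcases hB B1 B2 hmeet hjoin with h6 | h6
  · apply h4
    apply DFunLike.ext
    intro a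
    have : η a ∈ B1 := (m1 _).mpr ⟨a, rfl⟩
    rw [h6] at this
    exact this
  · apply h5
    apply DFunLike.ext
    intro a
    have : π a - η a ∈ B2 := (m2 _).mpr ⟨a, rfl⟩
    rw [h6] at this
    have h7 : π a - η a = 0 := this
    rw [sub_eq_zero] at h7
    exact h7.symm

/-! ### The ring -/

/-- The ambient ring: all sequences of elements of `B6 ℚ`. -/
abbrev T : Type := ℕ → B6 ℚ

/-- The sequences with values in the integral elements which are periodic with period a power
of two. -/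
noncomputable def R : Subring T where
  carrier := {f | (∃ n : ℕ, ∀ i, f (i + 2 ^ n) = f i) ∧ ∀ i, f i ∈ B6.intB}
  one_mem' := ⟨⟨0, fun _ => rfl⟩, fun _ => B6.intB.one_mem⟩
  zero_mem' := ⟨⟨0, fun _ => rfl⟩, fun _ => B6.intB.zero_mem⟩
  mul_mem' := by
    rintro f g ⟨⟨n, hn⟩, h1⟩ ⟨⟨m, hm⟩, h2⟩
    refine ⟨⟨n + m, fun i => ?_⟩, fun i => B6.intB.mul_mem (h1 i) (h2 i)⟩
    have e1 : f (i + 2 ^ (n + m)) = f i := by
      have : ∀ k, f (i + k * 2 ^ n) = f i := by
        intro k
        induction k with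
        | zero => simp
        | succ k ih => rw [add_mul, one_mul, ← add_assoc, hn, ih]
      rw [pow_add, mul_comm]; exact this _
    have e2 : g (i + 2 ^ (n + m)) = g i := by
      have : ∀ k, g (i + k * 2 ^ m) = g i := by
        intro k
        induction k with
        | zero => simp
        | succ k ih => rw [add_mul, one_mul, ← add_assoc, hm, ih]
      rw [pow_add]; exact this _
    rw [Pi.mul_apply, Pi.mul_apply, e1, e2]
  add_mem' := by
    rintro f g ⟨⟨n, hn⟩, h1⟩ ⟨⟨m, hm⟩, h2⟩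
    refine ⟨⟨n + m, fun i => ?_⟩, fun i => B6.intB.add_mem (h1 i) (h2 i)⟩
    have e1 : f (i + 2 ^ (n + m)) = f i := by
      have : ∀ k, f (i + k * 2 ^ n) = f i := by
        intro k
        induction k with
        | zero => simp
        | succ k ih => rw [add_mul, one_mul, ← add_assoc, hn, ih]
      rw [pow_add, mul_comm]; exact this _
    have e2 : g (i + 2 ^ (n + m)) = g i := by
      have : ∀ k, g (i + k * 2 ^ m) = g i := by
        intro k
        induction k with
        | zero => simp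
        | succ k ih => rw [add_mul, one_mul, ← add_assoc, hm, ih]
      rw [pow_add]; exact this _
    rw [Pi.add_apply, Pi.add_apply, e1, e2]
  neg_mem' := by
    rintro f ⟨⟨n, hn⟩, h1⟩
    exact ⟨⟨n, fun i => by rw [Pi.neg_apply, Pi.neg_apply, hn]⟩, fun i => B6.intB.neg_mem (h1 i)⟩

theorem periodic_mod {f : T} {n : ℕ} (h : ∀ i, f (i + 2 ^ n) = f i) (i : ℕ) :
    f i = f (i % 2 ^ n) := by
  have : ∀ k j, f (j + k * 2 ^ n) = f j := by
    intro k j
    induction k with
    | zero => simp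
    | succ k ih => rw [add_mul, one_mul, ← add_assoc, h, ih]
  conv_lhs => rw [← Nat.mod_add_div i (2 ^ n), mul_comm (2 ^ n)]
  rw [this]

instance : Countable R := by
  classical
  let N : R → ℕ := fun f => Classical.choose f.2.1
  have hN : ∀ f : R, ∀ i, (f : T) (i + 2 ^ N f) = (f : T) i := fun f => Classical.choose_spec f.2.1
  let Φ : R → Σ n : ℕ, (Fin (2 ^ n) → B6 ℚ) := fun f => ⟨N f, fun i => (f : T) i⟩
  apply Function.Injective.countable (f := Φ)
  intro f g h
  have h1 : N f = N g := congrArg Sigma.fst h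
  have h2 : ∀ i : ℕ, i < 2 ^ N f → (f : T) i = (g : T) i := by
    intro i hi
    have key : ∀ (n : ℕ) (u : Fin (2 ^ N f) → B6 ℚ) (v : Fin (2 ^ n) → B6 ℚ),
        (⟨N f, u⟩ : Σ n : ℕ, (Fin (2 ^ n) → B6 ℚ)) = ⟨n, v⟩ → ∀ (a : Fin (2 ^ N f)) (c : Fin (2 ^ n)),
        (a : ℕ) = c → u a = v c := by
      intro n u v huv a c hac
      cases huv
      congr 1
      exact Fin.ext hac
    exact key (N g) _ _ h ⟨i, hi⟩ ⟨i, h1 ▸ hi⟩ rfl
  apply Subtype.ext
  funext i
  rw [periodic_mod (hN f) i, periodic_mod (hN g) i, ← h1]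
  exact h2 _ (Nat.mod_lt _ (by positivity))

theorem reduced : Reduced R := by
  intro ℓ hℓ r h
  funext i
  apply B6.red_intB hℓ
  intro k
  obtain ⟨m, hm, s, hs, hms⟩ := h k
  refine ⟨m, hm, s i, hs.2 i, ?_⟩
  have := congrFun hms i
  simpa using this

/-- The characteristic function of a residue class, times a constant. -/
def chi (n i : ℕ) (v : B6 ℚ) : T := fun j => if j % 2 ^ n = i % 2 ^ n then v else 0

theorem chi_mem {n i : ℕ} {v : B6 ℚ} (hv : v ∈ B6.intB) : chi n i v ∈ R := by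
  refine ⟨⟨n, fun j => ?_⟩, fun j => ?_⟩
  · simp [chi]
  · unfold chi
    split_ifs
    · exact hv
    · exact B6.intB.zero_mem

theorem essR : ∀ r ∈ R, r ≠ 0 → ∃ x ∈ R, ∃ y ∈ R, (∀ t ∈ R, t * x = x * t) ∧
      (∀ t ∈ R, t * y = y * t) ∧ x ≠ 0 ∧ y ≠ 0 ∧ r * x = y := by
  intro r hr hr0
  obtain ⟨i, hi⟩ : ∃ i, r i ≠ 0 := by
    by_contra hno
    push Not at hno
    exact hr0 (funext hno)
  obtain ⟨⟨n, hn⟩, hint⟩ := hr
  obtain ⟨b, hb⟩ := hint i
  have hb0 : b ≠ 0 := by
    rintro rfl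
    rw [map_zero] at hb
    exact hi hb.symm
  obtain ⟨x, hx, y, hy, hx0, hy0, hxy⟩ := B6.ess b hb0
  have hinj : Function.Injective (B6.map (Int.castRingHom ℚ)) :=
    B6.map_injective (RingHom.injective_int (Int.castRingHom ℚ))
  have hcen : ∀ c ∈ Subring.center (B6 ℤ), ∀ v : B6 ℚ,
      v * B6.map (Int.castRingHom ℚ) c = B6.map (Int.castRingHom ℚ) c * v := by
    intro c hc v
    rw [B6.mem_center_iff] at hc
    have : B6.map (Int.castRingHom ℚ) c ∈ Subring.center (B6 ℚ) := by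
      rw [B6.mem_center_iff, B6.map_apply]
      simp [hc.1, hc.2]
    exact Subring.mem_center_iff.mp this v
  have hcomm : ∀ c ∈ Subring.center (B6 ℤ), ∀ t : T,
      t * chi n i (B6.map (Int.castRingHom ℚ) c) = chi n i (B6.map (Int.castRingHom ℚ) c) * t := by
    intro c hc t
    funext j
    simp only [Pi.mul_apply, chi]
    split_ifs
    · exact hcen c hc _
    · simp
  have hne : ∀ c : B6 ℤ, c ≠ 0 → chi n i (B6.map (Int.castRingHom ℚ) c) ≠ 0 := by
    intro c hc h
    have h1 := congrFun h i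
    simp only [chi, if_true, Pi.zero_apply] at h1
    apply hc
    apply hinj
    rw [h1, map_zero]
  refine ⟨chi n i (B6.map (Int.castRingHom ℚ) x), chi_mem ⟨x, rfl⟩,
    chi n i (B6.map (Int.castRingHom ℚ) y), chi_mem ⟨y, rfl⟩, fun t _ => hcomm x hx t,
    fun t _ => hcomm y hy t, hne x hx0, hne y hy0, ?_⟩
  funext j
  simp only [Pi.mul_apply, chi]
  split_ifs with h
  · have : r j = r i := by rw [periodic_mod hn j, periodic_mod hn i, h]
    rw [this, ← hb, ← map_mul, hxy]
  · simp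

/-- Every nonzero idempotent with a positive multiple in `R` can be split. -/
theorem split {g : T} {N : ℕ} (hN : 0 < N) (hg : (N : T) * g ∈ R) (hgg : g * g = g) (hg0 : g ≠ 0) :
    ∃ h ∈ R, h * g = h ∧ g * h = h ∧ h * h = h ∧ h ≠ 0 ∧ h ≠ g := by
  obtain ⟨i, hi⟩ : ∃ i, g i ≠ 0 := by
    by_contra hno
    push Not at hno
    exact hg0 (funext hno)
  obtain ⟨⟨n, hn⟩, -⟩ := hg
  have hgn : ∀ j, g (j + 2 ^ n) = g j := by
    intro j
    have h1 := hn j
    simp only [Pi.mul_apply, Pi.natCast_apply] at h1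
    exact natCast_cancel hN h1
  have hid : ∀ j, g j = 0 ∨ g j = 1 := fun j => B6.idem (congrFun hgg j)
  have hi1 : g i = 1 := (hid i).resolve_left hi
  have hmod : ∀ j, j % 2 ^ (n + 1) = i % 2 ^ (n + 1) → g j = 1 := by
    intro j hj
    have h1 : j % 2 ^ n = i % 2 ^ n := by
      have h2 : (2 : ℕ) ^ n ∣ 2 ^ (n + 1) := pow_dvd_pow 2 (Nat.le_succ n)
      rw [← Nat.mod_mod_of_dvd j h2, hj, Nat.mod_mod_of_dvd i h2]
    rw [periodic_mod hgn j, h1, ← periodic_mod hgn i, hi1]
  refine ⟨chi (n + 1) i 1, chi_mem B6.intB.one_mem, ?_, ?_, ?_, ?_, ?_⟩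
  · funext j
    simp only [Pi.mul_apply, chi]
    split_ifs with h
    · rw [hmod j h, mul_one]
    · rw [zero_mul]
  · funext j
    simp only [Pi.mul_apply, chi]
    split_ifs with h
    · rw [hmod j h, mul_one]
    · rw [mul_zero]
  · funext j
    simp only [Pi.mul_apply, chi]
    split_ifs with h
    · rw [mul_one]
    · rw [mul_zero]
  · intro h
    have h1 := congrFun h i
    simp only [chi, if_true, Pi.zero_apply] at h1
    exact one_ne_zero (congrArg B6.e h1)
  · intro h
    have h1 := congrFun h (i + 2 ^ n)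
    have h2 : ¬ (i + 2 ^ n) % 2 ^ (n + 1) = i % 2 ^ (n + 1) := by
      intro h3
      have h4 : (i + 2 ^ n) ≡ i + 0 [MOD 2 ^ (n + 1)] := h3
      have h5 := Nat.ModEq.add_left_cancel' i h4
      have h6 : (2 : ℕ) ^ (n + 1) ∣ 2 ^ n := (Nat.modEq_zero_iff_dvd).mp h5
      have h7 := Nat.le_of_dvd (by positivity) h6
      rw [pow_succ] at h7
      have : 0 < 2 ^ n := by positivity
      omega
    rw [hgn, hi1, chi, if_neg h2] at h1
    exact one_ne_zero (congrArg B6.e h1.symm)

/-- **A super-decomposable abelian group with noncommutative centrally essential endomorphism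
ring.** -/
theorem result : ∃ (A : Type) (_ : AddCommGroup A), SuperDecomposable A ∧
    (∃ f g : AddMonoid.End A, f * g ≠ g * f) ∧ CentrallyEssential (AddMonoid.End A) := by
  obtain ⟨A, instA, O, e, hRO, hO⟩ := main R reduced
  refine ⟨A, instA, ?_, ?_, ?_⟩
  · apply superDecomposable_of
    intro π hππ hπ0
    obtain ⟨n, hn, hnR⟩ := hO (e π) (e π).2
    have h1 : ((e π : O) : T) * ((e π : O) : T) = ((e π : O) : T) := by
      have := congrArg (fun z : O => (z : T)) (congrArg e hππ)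
      simpa using this
    have h2 : ((e π : O) : T) ≠ 0 := by
      intro h
      apply hπ0
      apply e.injective
      rw [map_zero]
      exact Subtype.ext h
    obtain ⟨h, hR, k1, k2, k3, k4, k5⟩ := split hn hnR h1 h2
    refine ⟨e.symm ⟨h, hRO hR⟩, ?_, ?_, ?_, ?_, ?_⟩
    · apply e.injective
      rw [map_mul, e.apply_symm_apply]
      exact Subtype.ext k1
    · apply e.injective
      rw [map_mul, e.apply_symm_apply]
      exact Subtype.ext k2
    · apply e.injective
      rw [map_mul, e.apply_symm_apply]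
      exact Subtype.ext k3
    · intro h0
      have := congrArg e h0
      rw [e.apply_symm_apply, map_zero] at this
      exact k4 (congrArg Subtype.val this)
    · intro h0
      have := congrArg e h0
      rw [e.apply_symm_apply] at this
      exact k5 (congrArg Subtype.val this)
  · -- two constant sequences which do not commute
    have hx : (fun _ => ⟨0, 1, 0, 0, 0, 0⟩ : T) ∈ R :=
      ⟨⟨0, fun _ => rfl⟩, fun _ => ⟨⟨0, 1, 0, 0, 0, 0⟩, by rw [B6.map_apply]; simp⟩⟩
    have hy : (fun _ => ⟨0, 0, 1, 0, 0, 0⟩ : T) ∈ R :=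
      ⟨⟨0, fun _ => rfl⟩, fun _ => ⟨⟨0, 0, 1, 0, 0, 0⟩, by rw [B6.map_apply]; simp⟩⟩
    refine ⟨e.symm ⟨_, hRO hx⟩, e.symm ⟨_, hRO hy⟩, ?_⟩
    intro h
    have h1 := congrArg e h
    rw [map_mul, map_mul, e.apply_symm_apply, e.apply_symm_apply] at h1
    have h2 := congrFun (congrArg Subtype.val h1) 0
    have h3 := congrArg B6.p h2
    simp at h3
  · exact centrallyEssential_congr e (centrallyEssential_of R O hRO hO essR)

end Pool.Agent.Results.MP_6d0c2f_al.SuperDecomp
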